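import Mathlib

/-!
# Multiplicative bases over the positive reals and over the positive integers

Let `E ⊆ [m] × [m]` be a bipartite graph with at least `m ^ 2 / 2` edges and without a complete bipartite
subgraph with `s = 2 k + 1` vertices on both sides, `m ≤ 2 ^ k` (it exists by counting). Attach distinct
primes `P i`, `Q j` to the vertices and `p u v` to the non-edges, and put
`r i = P i / ∏ v, p i v`, `t j = Q j * ∏_{v ≠ j} p u v` (products over non-edges). For an edge `(i, j)` the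
product `r i * t j` is the integer `a i j = P i * Q j * ∏_{u ≠ i, v ≠ j} p u v`. An integer set `C` with
all `a i j` among its products has at least `|E| / (2 s)` elements.
-/

set_option autoImplicit false

open Finset

namespace Pool.Agent.Results.MP_e3bb54_nt.NearQuadraticGap

/-- a bipartite graph with half of all edges and without large complete bipartite subgraphs -/
lemma exists_graph (m k : ℕ) (hk : 1 ≤ k) (hm : m ≤ 2 ^ k) :
    ∃ E : Finset (Fin m × Fin m), m ^ 2 ≤ 2 * E.card ∧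
      ∀ S T : Finset (Fin m), S.card = 2 * k + 1 → T.card = 2 * k + 1 → ¬ S ×ˢ T ⊆ E := by
  classical
  by_contra hcon
  push Not at hcon
  -- every graph or its complement contains a large complete bipartite graph
  have hall : ∀ G : Finset (Fin m × Fin m), ∃ S T : Finset (Fin m), S.card = 2 * k + 1 ∧
      T.card = 2 * k + 1 ∧ (S ×ˢ T ⊆ G ∨ S ×ˢ T ⊆ Gᶜ) := by
    intro G
    have h1 : G.card + Gᶜ.card = m ^ 2 := by
      rw [Finset.card_add_card_compl]
      simp [pow_two]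
    rcases Nat.lt_or_ge (2 * G.card) (m ^ 2) with h | h
    · obtain ⟨S, T, hS, hT, hST⟩ := hcon Gᶜ (by omega)
      exact ⟨S, T, hS, hT, Or.inr hST⟩
    · obtain ⟨S, T, hS, hT, hST⟩ := hcon G h
      exact ⟨S, T, hS, hT, Or.inl hST⟩
  have hcover : (Finset.univ : Finset (Finset (Fin m × Fin m))) ⊆
      ((powersetCard (2 * k + 1) (univ : Finset (Fin m))) ×ˢ
        (powersetCard (2 * k + 1) (univ : Finset (Fin m)))).biUnion
        (fun ST => Finset.Icc (ST.1 ×ˢ ST.2) univ ∪ Finset.Iic ((ST.1 ×ˢ ST.2)ᶜ)) := by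
    intro G _
    obtain ⟨S, T, hS, hT, h⟩ := hall G
    rw [Finset.mem_biUnion]
    refine ⟨(S, T), ?_, ?_⟩
    · rw [Finset.mem_product, mem_powersetCard, mem_powersetCard]
      exact ⟨⟨subset_univ _, hS⟩, ⟨subset_univ _, hT⟩⟩
    · rw [Finset.mem_union, Finset.mem_Icc, Finset.mem_Iic]
      rcases h with h | h
      · exact Or.inl ⟨h, subset_univ _⟩
      · right
        intro x hx
        rw [Finset.mem_compl]
        intro hx2
        exact (Finset.mem_compl.1 (h hx2)) hx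
  have hcard := Finset.card_le_card hcover
  have hcu : (Finset.univ : Finset (Finset (Fin m × Fin m))).card = 2 ^ (m ^ 2) := by
    rw [Finset.card_univ, Fintype.card_finset]
    simp [pow_two]
  rw [hcu] at hcard
  have hb : ∀ ST ∈ ((powersetCard (2 * k + 1) (univ : Finset (Fin m))) ×ˢ
        (powersetCard (2 * k + 1) (univ : Finset (Fin m)))),
      (Finset.Icc (ST.1 ×ˢ ST.2) univ ∪ Finset.Iic ((ST.1 ×ˢ ST.2)ᶜ)).card ≤
        2 * 2 ^ (m ^ 2 - (2 * k + 1) ^ 2) := by
    rintro ⟨S, T⟩ hST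
    rw [Finset.mem_product, mem_powersetCard, mem_powersetCard] at hST
    have h1 : (S ×ˢ T).card = (2 * k + 1) ^ 2 := by
      rw [Finset.card_product, hST.1.2, hST.2.2, pow_two]
    refine (Finset.card_union_le _ _).trans ?_
    rw [Finset.card_Icc_finset (subset_univ _), Finset.card_Iic_finset, Finset.card_compl]
    have h2 : (Finset.univ : Finset (Fin m × Fin m)).card = m ^ 2 := by
      rw [Finset.card_univ]; simp [pow_two]
    have h3 : Fintype.card (Fin m × Fin m) = m ^ 2 := by simp [pow_two]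
    rw [h2, h3]
    simp only [h1]
    omega
  have h4 := hcard.trans (Finset.card_biUnion_le_card_mul _ _ _ hb)
  rw [Finset.card_product, card_powersetCard, card_univ, Fintype.card_fin] at h4
  -- the square of the binomial coefficient is at most `m ^ (2 s)`
  have hle : (2 * k + 1) ^ 2 ≤ m ^ 2 := by
    obtain ⟨S, T, hS, hT, -⟩ := hall ∅
    have h5 : S.card ≤ m := by
      simpa using Finset.card_le_univ S
    exact Nat.pow_le_pow_left (by omega) 2
  have h6 : m.choose (2 * k + 1) ≤ (2 ^ k) ^ (2 * k + 1) :=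
    (Nat.choose_le_pow _ _).trans (Nat.pow_le_pow_left hm _)
  have h7 : 2 ^ (m ^ 2) ≤ ((2 ^ k) ^ (2 * k + 1) * (2 ^ k) ^ (2 * k + 1)) *
      (2 * 2 ^ (m ^ 2 - (2 * k + 1) ^ 2)) :=
    h4.trans (Nat.mul_le_mul_right _ (Nat.mul_le_mul h6 h6))
  have h8 : ((2 ^ k) ^ (2 * k + 1) * (2 ^ k) ^ (2 * k + 1)) *
      (2 * 2 ^ (m ^ 2 - (2 * k + 1) ^ 2)) =
      2 ^ (2 * (k * (2 * k + 1)) + 1 + (m ^ 2 - (2 * k + 1) ^ 2)) := by
    rw [← pow_mul, ← pow_add, ← pow_succ', ← pow_add]
    congr 1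
    ring
  rw [h8] at h7
  have h9 := (Nat.pow_le_pow_iff_right (by norm_num : 1 < 2)).1 h7
  have h10 : 2 * (k * (2 * k + 1)) + 1 < (2 * k + 1) ^ 2 := by nlinarith
  omega

/-- distinct primes indexed by a finite type -/
lemma exists_primes (ι : Type) [Finite ι] : ∃ pr : ι → ℕ, Function.Injective pr ∧
    ∀ x, (pr x).Prime := by
  have : Infinite {p : ℕ // p.Prime} := Nat.infinite_setOfPred_prime.to_subtype
  obtain ⟨n, ⟨e⟩⟩ := Finite.exists_equiv_fin ι
  let f : ℕ ↪ {p : ℕ // p.Prime} := Infinite.natEmbedding _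
  refine ⟨fun x => (f (e x : ℕ)).1, fun x y h => ?_, fun x => (f (e x : ℕ)).2⟩
  have h1 := f.injective (Subtype.ext h)
  exact e.injective (Fin.ext h1)

/-- vertices on both sides, and pairs -/
abbrev Idx (m : ℕ) : Type := (Fin m ⊕ Fin m) ⊕ (Fin m × Fin m)

section
variable {m : ℕ} (E : Finset (Fin m × Fin m)) (pr : Idx m → ℕ)

/-- the integer attached to the edge `(i, j)` -/
def a (i j : Fin m) : ℕ :=
  pr (Sum.inl (Sum.inl i)) * pr (Sum.inl (Sum.inr j)) *
    ∏ w ∈ Eᶜ.filter (fun w => w.1 ≠ i ∧ w.2 ≠ j), pr (Sum.inr w)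

/-- denominators -/
def den (i : Fin m) : ℕ := ∏ w ∈ Eᶜ.filter (fun w => w.1 = i), pr (Sum.inr w)

/-- right factors -/
def rt (j : Fin m) : ℕ :=
  pr (Sum.inl (Sum.inr j)) * ∏ w ∈ Eᶜ.filter (fun w => w.2 ≠ j), pr (Sum.inr w)

lemma a_mul_den (i j : Fin m) (h : (i, j) ∈ E) :
    a E pr i j * den E pr i = pr (Sum.inl (Sum.inl i)) * rt E pr j := by
  have h1 : Eᶜ.filter (fun w => w.2 ≠ j) =
      (Eᶜ.filter (fun w => w.1 ≠ i ∧ w.2 ≠ j)) ∪ (Eᶜ.filter (fun w => w.1 = i)) := by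
    ext w
    simp only [mem_filter, mem_compl, mem_union]
    constructor
    · rintro ⟨h2, h3⟩
      by_cases h4 : w.1 = i
      · exact Or.inr ⟨h2, h4⟩
      · exact Or.inl ⟨h2, h4, h3⟩
    · rintro (⟨h2, h3, h4⟩ | ⟨h2, h3⟩)
      · exact ⟨h2, h4⟩
      · refine ⟨h2, fun h4 => h2 ?_⟩
        rw [← h3, ← h4] at h
        exact h
  have h2 : Disjoint (Eᶜ.filter (fun w => w.1 ≠ i ∧ w.2 ≠ j)) (Eᶜ.filter (fun w => w.1 = i)) := by
    rw [Finset.disjoint_left]
    intro w h3 h4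
    rw [mem_filter] at h3 h4
    exact h3.2.1 h4.2
  rw [a, den, rt, h1, Finset.prod_union h2]
  ring

variable {pr} (hinj : Function.Injective pr) (hpr : ∀ x, (pr x).Prime)
include hinj hpr

lemma dvd_prod_iff (S : Finset (Fin m × Fin m)) (x : Idx m) :
    pr x ∣ ∏ w ∈ S, pr (Sum.inr w) ↔ ∃ w ∈ S, x = Sum.inr w := by
  rw [(hpr x).prime.dvd_finsetProd_iff]
  constructor
  · rintro ⟨w, hw, h⟩
    exact ⟨w, hw, hinj ((Nat.prime_dvd_prime_iff_eq (hpr _) (hpr _)).1 h)⟩
  · rintro ⟨w, hw, rfl⟩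
    exact ⟨w, hw, dvd_rfl⟩

lemma dvd_a_iff (x : Idx m) (i j : Fin m) : pr x ∣ a E pr i j ↔
    x = Sum.inl (Sum.inl i) ∨ x = Sum.inl (Sum.inr j) ∨
      ∃ w, w ∉ E ∧ w.1 ≠ i ∧ w.2 ≠ j ∧ x = Sum.inr w := by
  rw [a, (hpr x).dvd_mul, (hpr x).dvd_mul, dvd_prod_iff hinj hpr,
    Nat.prime_dvd_prime_iff_eq (hpr _) (hpr _), Nat.prime_dvd_prime_iff_eq (hpr _) (hpr _),
    hinj.eq_iff, hinj.eq_iff, or_assoc]
  simp only [mem_filter, mem_compl, and_assoc]

lemma dvd_a_left {i i' j : Fin m} (h : pr (Sum.inl (Sum.inl i')) ∣ a E pr i j) : i' = i := by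
  rw [dvd_a_iff E hinj hpr] at h
  rcases h with h | h | ⟨w, -, -, -, h⟩
  · simpa using h
  · simp at h
  · simp at h

lemma dvd_a_right {i j j' : Fin m} (h : pr (Sum.inl (Sum.inr j')) ∣ a E pr i j) : j' = j := by
  rw [dvd_a_iff E hinj hpr] at h
  rcases h with h | h | ⟨w, -, -, -, h⟩
  · simp at h
  · simpa using h
  · simp at h

lemma dvd_a_pair {i j : Fin m} {w : Fin m × Fin m} (h : pr (Sum.inr w) ∣ a E pr i j) :
    w ∉ E ∧ w.1 ≠ i ∧ w.2 ≠ j := by
  rw [dvd_a_iff E hinj hpr] at h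
  rcases h with h | h | ⟨w', h1, h2, h3, h⟩
  · simp at h
  · simp at h
  · have : w = w' := by simpa using h
    subst this
    exact ⟨h1, h2, h3⟩

lemma pair_dvd_a {i j : Fin m} {w : Fin m × Fin m} (h1 : w ∉ E) (h2 : w.1 ≠ i) (h3 : w.2 ≠ j) :
    pr (Sum.inr w) ∣ a E pr i j :=
  (dvd_a_iff E hinj hpr _ _ _).2 (Or.inr (Or.inr ⟨w, h1, h2, h3, rfl⟩))

/-- the main counting: `C` with all `a i j` among its products is large -/
lemma card_bound (s : ℕ) (hs : 1 ≤ s)
    (hE : ∀ S T : Finset (Fin m), S.card = s → T.card = s → ¬ S ×ˢ T ⊆ E)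
    (C : Finset ℕ) (hC : ∀ e ∈ E, ∃ c ∈ C, ∃ d ∈ C, a E pr e.1 e.2 = c * d) :
    E.card ≤ (2 * s - 1) * C.card := by
  classical
  -- choose the factor containing the left vertex
  have hC2 : ∀ e : Fin m × Fin m, ∃ cd : ℕ × ℕ, e ∈ E → cd.1 ∈ C ∧ cd.2 ∈ C ∧
      a E pr e.1 e.2 = cd.1 * cd.2 ∧ pr (Sum.inl (Sum.inl e.1)) ∣ cd.1 := by
    intro e
    by_cases he : e ∈ E
    · obtain ⟨c, hc, d, hd, h⟩ := hC e he
      have h1 : pr (Sum.inl (Sum.inl e.1)) ∣ c * d := by
        rw [← h]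
        exact (dvd_a_iff E hinj hpr _ _ _).2 (Or.inl rfl)
      rcases (hpr _).dvd_mul.1 h1 with h2 | h2
      · exact ⟨(c, d), fun _ => ⟨hc, hd, h, h2⟩⟩
      · exact ⟨(d, c), fun _ => ⟨hd, hc, by rw [h, mul_comm], h2⟩⟩
    · exact ⟨(0, 0), fun h => absurd h he⟩
  choose cd hcd using hC2
  obtain ⟨F1, hF1⟩ : ∃ F1, F1 = E.filter (fun e => pr (Sum.inl (Sum.inr e.2)) ∣ (cd e).1) :=
    ⟨_, rfl⟩
  obtain ⟨F2, hF2⟩ : ∃ F2, F2 = E.filter (fun e => ¬ pr (Sum.inl (Sum.inr e.2)) ∣ (cd e).1) :=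
    ⟨_, rfl⟩
  have hsplit : F1.card + F2.card = E.card := by
    rw [hF1, hF2]
    exact Finset.card_filter_add_card_filter_not _
  -- full edges
  have hfull : F1.card ≤ C.card := by
    apply Finset.card_le_card_of_injOn (fun e => (cd e).1)
    · intro e he
      rw [hF1, Finset.coe_filter, Set.mem_ofPred_eq] at he
      exact (hcd e he.1).1
    · intro e he e' he' h
      rw [hF1, Finset.coe_filter, Set.mem_ofPred_eq] at he he'
      simp only at h
      have h1 := hcd e he.1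
      have h2 := hcd e' he'.1
      have h3 : (cd e).1 ∣ a E pr e'.1 e'.2 := by
        rw [h2.2.2.1, h]; exact dvd_mul_right _ _
      exact Prod.ext (dvd_a_left E hinj hpr (h1.2.2.2.trans h3))
        (dvd_a_right E hinj hpr (he.2.trans h3))
  -- split edges: one of the two degrees is small
  have hdeg : ∀ e ∈ F2, (F2.filter (fun e' => (cd e').1 = (cd e).1)).card ≤ s - 1 ∨
      (F2.filter (fun e' => (cd e').2 = (cd e).2)).card ≤ s - 1 := by
    intro e he
    by_contra hcon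
    push Not at hcon
    obtain ⟨hc1, hc2⟩ := hcon
    have hmem : ∀ e' ∈ F2, e' ∈ E ∧ ¬ pr (Sum.inl (Sum.inr e'.2)) ∣ (cd e').1 := by
      intro e' he'
      rw [hF2, mem_filter] at he'
      exact he'
    have he1 := hmem e he
    have h0 := hcd e he1.1
    -- neighbours
    have hT : ∀ e' ∈ F2.filter (fun e' => (cd e').1 = (cd e).1), e'.1 = e.1 := by
      intro e' he'
      rw [mem_filter] at he'
      have h1 := hcd e' (hmem e' he'.1).1
      refine dvd_a_left E hinj hpr (j := e.2) (h1.2.2.2.trans ?_)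
      rw [he'.2, h0.2.2.1]
      exact dvd_mul_right _ _
    have hS : ∀ e' ∈ F2.filter (fun e' => (cd e').2 = (cd e).2), e'.2 = e.2 := by
      intro e' he'
      rw [mem_filter] at he'
      have h2 := hmem e' he'.1
      have h1 := hcd e' h2.1
      have h3 : pr (Sum.inl (Sum.inr e'.2)) ∣ (cd e').1 * (cd e').2 := by
        rw [← h1.2.2.1]
        exact (dvd_a_iff E hinj hpr _ _ _).2 (Or.inr (Or.inl rfl))
      rcases (hpr _).dvd_mul.1 h3 with h4 | h4
      · exact absurd h4 h2.2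
      · refine dvd_a_right E hinj hpr (i := e.1) (h4.trans ?_)
        rw [he'.2, h0.2.2.1]
        exact dvd_mul_left _ _
    have hTc : s ≤ ((F2.filter (fun e' => (cd e').1 = (cd e).1)).image Prod.snd).card := by
      rw [Finset.card_image_of_injOn]
      · omega
      · intro x hx y hy hxy
        exact Prod.ext ((hT x hx).trans (hT y hy).symm) hxy
    have hSc : s ≤ ((F2.filter (fun e' => (cd e').2 = (cd e).2)).image Prod.fst).card := by
      rw [Finset.card_image_of_injOn]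
      · omega
      · intro x hx y hy hxy
        exact Prod.ext hxy ((hS x hx).trans (hS y hy).symm)
    obtain ⟨T, hT1, hT2⟩ := Finset.exists_subset_card_eq hTc
    obtain ⟨S, hS1, hS2⟩ := Finset.exists_subset_card_eq hSc
    refine hE S T hS2 hT2 ?_
    rintro ⟨i', j'⟩ hij
    rw [mem_product] at hij
    obtain ⟨⟨i1, j⟩, hx, hx'⟩ := Finset.mem_image.1 (hS1 hij.1)
    obtain ⟨⟨i, j1⟩, hy, hy'⟩ := Finset.mem_image.1 (hT1 hij.2)
    simp only at hx' hy'
    subst hx' hy'
    have hj : j = e.2 := hS _ hx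
    have hi : i = e.1 := hT _ hy
    rw [mem_filter] at hx hy
    have hx1 := hcd _ (hmem _ hx.1).1
    have hy1 := hcd _ (hmem _ hy.1).1
    by_contra hnot
    have hii : i1 ≠ i := by
      intro h
      rw [h] at hnot
      exact hnot (hmem _ hy.1).1
    have hjj : j1 ≠ j := by
      intro h
      rw [h] at hnot
      exact hnot (hmem _ hx.1).1
    -- the prime of the non-edge `(i1, j1)`
    have h1 : ¬ pr (Sum.inr (i1, j1)) ∣ (cd e).2 := by
      intro h
      have h2 : pr (Sum.inr (i1, j1)) ∣ a E pr i1 j := by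
        have := hx1.2.2.1
        simp only at this
        rw [this, hx.2]
        exact dvd_mul_of_dvd_right h _
      exact (dvd_a_pair E hinj hpr h2).2.1 rfl
    have h2 : pr (Sum.inr (i1, j1)) ∣ (cd e).1 * (cd e).2 := by
      rw [← h0.2.2.1]
      refine pair_dvd_a E hinj hpr hnot ?_ ?_
      · simp only
        rw [← hi]; exact hii
      · simp only
        rw [← hj]; exact hjj
    rcases (hpr _).dvd_mul.1 h2 with h3 | h3
    · have h4 : pr (Sum.inr (i1, j1)) ∣ a E pr i j1 := by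
        have := hy1.2.2.1
        simp only at this
        rw [this, hy.2]
        exact dvd_mul_of_dvd_left h3 _
      exact (dvd_a_pair E hinj hpr h4).2.2 rfl
    · exact h1 h3
  have hsmall : F2.card ≤ 2 * (s - 1) * C.card := by
    have h1 : F2 ⊆ (C.biUnion (fun c => if (F2.filter (fun e' => (cd e').1 = c)).card ≤ s - 1
        then F2.filter (fun e' => (cd e').1 = c) else ∅)) ∪
        (C.biUnion (fun c => if (F2.filter (fun e' => (cd e').2 = c)).card ≤ s - 1
        then F2.filter (fun e' => (cd e').2 = c) else ∅)) := by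
      intro e he
      have he0 : e ∈ E := by
        rw [hF2, mem_filter] at he
        exact he.1
      have h2 := hcd e he0
      rw [Finset.mem_union]
      rcases hdeg e he with h | h
      · left
        rw [Finset.mem_biUnion]
        refine ⟨(cd e).1, h2.1, ?_⟩
        rw [if_pos h, mem_filter]
        exact ⟨he, rfl⟩
      · right
        rw [Finset.mem_biUnion]
        refine ⟨(cd e).2, h2.2.1, ?_⟩
        rw [if_pos h, mem_filter]
        exact ⟨he, rfl⟩
    refine (Finset.card_le_card h1).trans ((Finset.card_union_le _ _).trans ?_)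
    have h3 := Finset.card_biUnion_le_card_mul C (fun c => if (F2.filter (fun e' =>
      (cd e').1 = c)).card ≤ s - 1 then F2.filter (fun e' => (cd e').1 = c) else ∅) (s - 1) (by
        intro c _
        split_ifs with h
        · exact h
        · simp)
    have h4 := Finset.card_biUnion_le_card_mul C (fun c => if (F2.filter (fun e' =>
      (cd e').2 = c)).card ≤ s - 1 then F2.filter (fun e' => (cd e').2 = c) else ∅) (s - 1) (by
        intro c _
        split_ifs with h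
        · exact h
        · simp)
    calc _ ≤ C.card * (s - 1) + C.card * (s - 1) := add_le_add h3 h4
      _ = 2 * (s - 1) * C.card := by ring
  obtain ⟨s', rfl⟩ : ∃ s', s = s' + 1 := ⟨s - 1, by omega⟩
  have h5 : 2 * (s' + 1) - 1 = 2 * s' + 1 := by omega
  rw [h5]
  simp only [Nat.add_sub_cancel] at hsmall
  nlinarith

end

/-- finite combinatorial form: real bases with `n` elements, integer bases with at least
`(n / 3) ^ 2 / (2 (4 k + 1))` elements, `k = log_2 n` -/
lemma finite_form (n : ℕ) (hn : 3 ≤ n) : ∃ B : Finset ℝ, (∀ b ∈ B, 0 < b) ∧ B.card = n ∧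
    ∃ A : Finset ℕ, (∀ x ∈ A, ∃ b ∈ B, ∃ c ∈ B, b * c = (x : ℝ)) ∧
      ∀ C : Finset ℕ, (∀ x ∈ A, ∃ c ∈ C, ∃ d ∈ C, c * d = x) →
        (n / 2) ^ 2 ≤ 2 * ((4 * Nat.log 2 n + 1) * C.card) := by
  classical
  obtain ⟨m, hm⟩ : ∃ m, m = n / 2 := ⟨_, rfl⟩
  obtain ⟨k, hk⟩ : ∃ k, k = Nat.log 2 n := ⟨_, rfl⟩
  have hk1 : 1 ≤ k := by
    rw [hk]
    exact Nat.log_pos (by norm_num) (by omega)
  have hmk : m ≤ 2 ^ k := by
    have h1 : n < 2 ^ (k + 1) := by
      rw [hk]; exact Nat.lt_pow_succ_log_self (by norm_num) n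
    rw [pow_succ] at h1
    omega
  obtain ⟨E, hE1, hE2⟩ := exists_graph m k hk1 hmk
  obtain ⟨pr, hinj, hpr⟩ := exists_primes (Idx m)
  -- the real basis
  have hden : ∀ i, 0 < den E pr i := fun i => Finset.prod_pos fun w _ => (hpr _).pos
  have hrt : ∀ j, 0 < rt E pr j := fun j =>
    Nat.mul_pos (hpr _).pos (Finset.prod_pos fun w _ => (hpr _).pos)
  obtain ⟨r, hr⟩ : ∃ r : Fin m → {x : ℝ // 0 < x}, ∀ i, (r i : ℝ) =
      (pr (Sum.inl (Sum.inl i)) : ℝ) / den E pr i := by
    refine ⟨fun i => ⟨(pr (Sum.inl (Sum.inl i)) : ℝ) / den E pr i, ?_⟩, fun i => rfl⟩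
    have h1 : (0 : ℝ) < pr (Sum.inl (Sum.inl i)) := by exact_mod_cast (hpr _).pos
    have h2 : (0 : ℝ) < den E pr i := by exact_mod_cast hden i
    positivity
  obtain ⟨t, ht⟩ : ∃ t : Fin m → {x : ℝ // 0 < x}, ∀ j, (t j : ℝ) = rt E pr j := by
    refine ⟨fun j => ⟨rt E pr j, ?_⟩, fun j => rfl⟩
    exact_mod_cast hrt j
  have : Infinite {x : ℝ // 0 < x} := by
    have : (Set.Ioi (0 : ℝ)).Infinite := Set.Ioi_infinite 0
    exact this.to_subtype
  have hB0 : (univ.image r ∪ univ.image t).card ≤ n := by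
    refine (Finset.card_union_le _ _).trans ?_
    have h1 : (univ.image r).card ≤ m := by
      simpa using Finset.card_image_le (s := univ) (f := r)
    have h2 : (univ.image t).card ≤ m := by
      simpa using Finset.card_image_le (s := univ) (f := t)
    omega
  obtain ⟨B, hB1, hB2⟩ := Infinite.exists_superset_card_eq _ n hB0
  refine ⟨B.map ⟨Subtype.val, Subtype.val_injective⟩, ?_, ?_, E.image (fun e => a E pr e.1 e.2),
    ?_, ?_⟩
  · intro b hb
    rw [Finset.mem_map] at hb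
    obtain ⟨b', -, rfl⟩ := hb
    exact b'.2
  · rw [Finset.card_map, hB2]
  · intro x hx
    rw [Finset.mem_image] at hx
    obtain ⟨⟨i, j⟩, he, rfl⟩ := hx
    refine ⟨r i, ?_, t j, ?_, ?_⟩
    · rw [Finset.mem_map]
      exact ⟨r i, hB1 (by simp), rfl⟩
    · rw [Finset.mem_map]
      exact ⟨t j, hB1 (by simp), rfl⟩
    · have h1 := a_mul_den E pr i j he
      have h2 : (a E pr i j : ℝ) * den E pr i = pr (Sum.inl (Sum.inl i)) * rt E pr j := by
        exact_mod_cast h1
      have h3 : (den E pr i : ℝ) ≠ 0 := by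
        have := hden i
        positivity
      rw [hr, ht]
      field_simp
      linarith
  · intro C hC
    have h1 := card_bound E hinj hpr (2 * k + 1) (by omega) hE2 C (by
      intro e he
      obtain ⟨c, hc, d, hd, h⟩ := hC (a E pr e.1 e.2) (Finset.mem_image_of_mem _ he)
      exact ⟨c, hc, d, hd, h.symm⟩)
    rw [← hm, ← hk]
    have h2 : 2 * (2 * k + 1) - 1 = 4 * k + 1 := by omega
    rw [h2] at h1
    omega

/-- **Near quadratic gap.** Let `ε < 1`. For every sufficiently large `n` there are a set `B` of `n`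
positive reals and a finite set `A` of natural numbers contained in the product set `B B` such that
`A` is not contained in the product set `C C` of any set `C` of natural numbers with fewer than
`n ^ (1 + ε)` elements. -/
theorem result (ε : ℝ) (hε : ε < 1) : ∃ n₀ : ℕ, ∀ n : ℕ, n₀ < n →
    ∃ B : Finset ℝ, (∀ b ∈ B, 0 < b) ∧ B.card = n ∧
      ∃ A : Finset ℕ, (∀ x ∈ A, ∃ b ∈ B, ∃ c ∈ B, b * c = (x : ℝ)) ∧
        ∀ C : Finset ℕ, (C.card : ℝ) < (n : ℝ) ^ (1 + ε) →
          ¬ ∀ x ∈ A, ∃ c ∈ C, ∃ d ∈ C, c * d = x := by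
  -- `log n / n ^ (1 - ε) → 0`
  have hlim : Filter.Tendsto (fun n : ℕ => Real.log n / (n : ℝ) ^ (1 - ε)) Filter.atTop
      (nhds 0) :=
    ((isLittleO_log_rpow_atTop (by linarith : 0 < 1 - ε)).tendsto_div_nhds_zero).comp
      tendsto_natCast_atTop_atTop
  have hlog2 : (0 : ℝ) < Real.log 2 := Real.log_pos (by norm_num)
  have hev := (hlim.eventually (gt_mem_nhds (by positivity : (0 : ℝ) < Real.log 2 / 100))).and
    (Filter.eventually_ge_atTop 3)
  obtain ⟨n₀, hn₀⟩ := Filter.eventually_atTop.1 hev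
  refine ⟨n₀, fun n hn => ?_⟩
  obtain ⟨h1, h3⟩ := hn₀ n hn.le
  obtain ⟨B, hB1, hB2, A, hA1, hA2⟩ := finite_form n h3
  refine ⟨B, hB1, hB2, A, hA1, fun C hC hCA => ?_⟩
  have h4 := hA2 C hCA
  have hn0 : (0 : ℝ) < n := by
    have : 0 < n := by omega
    exact_mod_cast this
  have h5 : ((n : ℝ) / 3) ^ 2 ≤ ((n / 2 : ℕ) : ℝ) ^ 2 := by
    apply pow_le_pow_left₀ (by positivity)
    have : n ≤ 3 * (n / 2) := by omega
    have h6 : (n : ℝ) ≤ 3 * ((n / 2 : ℕ) : ℝ) := by exact_mod_cast this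
    linarith
  have h6 : (((n / 2 : ℕ) : ℝ)) ^ 2 ≤ 2 * ((4 * (Nat.log 2 n : ℝ) + 1) * C.card) := by
    exact_mod_cast h4
  have h7 : (Nat.log 2 n : ℝ) * Real.log 2 ≤ Real.log n := by
    have h8 : (2 : ℝ) ^ (Nat.log 2 n) ≤ n := by
      exact_mod_cast Nat.pow_log_le_self 2 (by omega)
    have h9 := Real.log_le_log (by positivity) h8
    rwa [Real.log_pow] at h9
  have hlog1 : Real.log 2 ≤ Real.log n := by
    apply Real.log_le_log (by norm_num)
    have : 2 ≤ n := by omega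
    exact_mod_cast this
  have h8 : (4 * (Nat.log 2 n : ℝ) + 1) * Real.log 2 ≤ 5 * Real.log n := by nlinarith
  have h9 : Real.log n < Real.log 2 / 100 * (n : ℝ) ^ (1 - ε) := by
    rwa [div_lt_iff₀ (by positivity)] at h1
  have h10 : (n : ℝ) ^ (1 - ε) * (n : ℝ) ^ (1 + ε) = (n : ℝ) ^ 2 := by
    rw [← Real.rpow_add hn0, ← Real.rpow_natCast]
    congr 1
    push_cast
    ring
  have hC0 : (0 : ℝ) ≤ C.card := Nat.cast_nonneg _
  have h11 : (0 : ℝ) < (n : ℝ) ^ (1 + ε) := Real.rpow_pos_of_pos hn0 _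
  have h12 : (0 : ℝ) < (n : ℝ) ^ (1 - ε) := Real.rpow_pos_of_pos hn0 _
  have hK : 0 ≤ 4 * (Nat.log 2 n : ℝ) + 1 := by positivity
  -- combine
  have h13 : ((n : ℝ) / 3) ^ 2 * Real.log 2 ≤ 2 * (5 * Real.log n) * C.card := by
    calc ((n : ℝ) / 3) ^ 2 * Real.log 2 ≤ (2 * ((4 * (Nat.log 2 n : ℝ) + 1) * C.card)) * Real.log 2 :=
          mul_le_mul_of_nonneg_right (h5.trans h6) hlog2.le
      _ = 2 * ((4 * (Nat.log 2 n : ℝ) + 1) * Real.log 2) * C.card := by ring
      _ ≤ 2 * (5 * Real.log n) * C.card := by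
          apply mul_le_mul_of_nonneg_right _ hC0
          linarith
  have hlogn : 0 ≤ Real.log n := hlog2.le.trans hlog1
  have h14 : 2 * (5 * Real.log n) * C.card ≤ 2 * (5 * Real.log n) * (n : ℝ) ^ (1 + ε) := by
    apply mul_le_mul_of_nonneg_left hC.le
    positivity
  have h15 : 2 * (5 * Real.log n) * (n : ℝ) ^ (1 + ε) ≤
      2 * (5 * (Real.log 2 / 100 * (n : ℝ) ^ (1 - ε))) * (n : ℝ) ^ (1 + ε) := by
    apply mul_le_mul_of_nonneg_right _ h11.le
    linarith
  have h16 : 2 * (5 * (Real.log 2 / 100 * (n : ℝ) ^ (1 - ε))) * (n : ℝ) ^ (1 + ε) =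
      Real.log 2 / 10 * (n : ℝ) ^ 2 := by
    rw [← h10]; ring
  have h17 : ((n : ℝ) / 3) ^ 2 * Real.log 2 ≤ Real.log 2 / 10 * (n : ℝ) ^ 2 := by
    rw [← h16]
    exact h13.trans (h14.trans h15)
  have h18 : (0 : ℝ) < Real.log 2 * (n : ℝ) ^ 2 := by positivity
  nlinarith

end Pool.Agent.Results.MP_e3bb54_nt.NearQuadraticGap
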